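import Pool.Agent.R818.Uok

/-!
# No class of test spaces characterises UOK
-/

set_option autoImplicit false

universe v

namespace Pool.Agent.Results.MP_82653f_gt.NoTestClass

open Pool.Agent.R818.Uok

theorem result : ∀ C : (Z : Type v) → TopologicalSpace Z → Prop,
    ¬ ∀ (X : Type) (_ : TopologicalSpace X), CHausdorff C X ↔ UOK X := by
  intro C hC
  obtain ⟨p, hp⟩ := exists_nonisolated
  exact main noSeq_ultrafilter p hp C hC

end Pool.Agent.Results.MP_82653f_gt.NoTestClass
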